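import Pool.Agent.H411R2.WSK.Conn

namespace Pool.Agent.H726Z.Kag

open Pool.Agent.H411R2.WSK

variable {n : ℕ}

/-- the three edge directions -/
def dv (n : ℕ) : Fin 3 → ZMod n × ZMod n := ![0, (1, 0), (0, 1)]

/-- the edge leaving the `A` vertex `p.1` in direction `p.2` -/
def ed (p : (ZMod n × ZMod n) × Fin 3) : (honeycomb n).edgeSet :=
  ⟨s(Sum.inl p.1, Sum.inr (p.1 - dv n p.2)), by
    rw [SimpleGraph.mem_edgeSet, honeycomb, SimpleGraph.fromRel_adj]
    refine ⟨by simp, Or.inl ⟨p.1, rfl, ?_⟩⟩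
    obtain ⟨x, d⟩ := p
    fin_cases d <;> simp [dv]⟩

theorem dv_inj (hn : 2 ≤ n) : Function.Injective (dv n) := by
  have : Fact (1 < n) := ⟨hn⟩
  intro d d' h
  fin_cases d <;> fin_cases d' <;> simp_all [dv, Prod.ext_iff]

theorem ed_inj (hn : 2 ≤ n) : Function.Injective (ed (n := n)) := by
  rintro ⟨x, d⟩ ⟨y, d'⟩ h
  have h1 := congrArg Subtype.val h
  simp only [ed, Sym2.eq_iff, Sum.inl.injEq, Sum.inr.injEq, reduceCtorEq, false_and, or_false] at h1
  obtain ⟨rfl, h2⟩ := h1
  rw [dv_inj hn (sub_right_injective h2)]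

theorem ed_surj : Function.Surjective (ed (n := n)) := by
  rintro ⟨ε, hε⟩
  induction ε using Sym2.ind with
  | _ u w =>
  rw [SimpleGraph.mem_edgeSet, honeycomb, SimpleGraph.fromRel_adj] at hε
  obtain ⟨-, ⟨x, rfl, h⟩ | ⟨x, rfl, h⟩⟩ := hε
  · rcases h with rfl | rfl | rfl
    · exact ⟨(x, 0), Subtype.ext (by simp [ed, dv])⟩
    · exact ⟨(x, 1), Subtype.ext (by simp [ed, dv])⟩
    · exact ⟨(x, 2), Subtype.ext (by simp [ed, dv])⟩
  · rcases h with rfl | rfl | rfl
    · exact ⟨(x, 0), Subtype.ext (by simp [ed, dv])⟩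
    · exact ⟨(x, 1), Subtype.ext (by simp [ed, dv])⟩
    · exact ⟨(x, 2), Subtype.ext (by simp [ed, dv])⟩

theorem adj_ed (hn : 2 ≤ n) (p q : (ZMod n × ZMod n) × Fin 3) :
    (kagome n).Adj (ed p) (ed q) ↔
      p ≠ q ∧ (p.1 = q.1 ∨ p.1 - dv n p.2 = q.1 - dv n q.2) := by
  rw [kagome, SimpleGraph.lineGraph_adj_iff_exists, (ed_inj hn).ne_iff]
  refine and_congr_right fun _ => ?_
  simp only [ed, Sym2.mem_iff]
  constructor
  · rintro ⟨v, h1 | h1, h2 | h2⟩
    · exact Or.inl (by simpa using h1.symm.trans h2)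
    · exact absurd (h1.symm.trans h2) (by simp)
    · exact absurd (h1.symm.trans h2) (by simp)
    · exact Or.inr (by simpa using h1.symm.trans h2)
  · rintro (h | h)
    · exact ⟨_, Or.inl rfl, Or.inl (by rw [h])⟩
    · exact ⟨_, Or.inr rfl, Or.inr (by rw [h])⟩

theorem adj_A (hn : 2 ≤ n) (x : ZMod n × ZMod n) {d d' : Fin 3} (h : d ≠ d') :
    (kagome n).Adj (ed (x, d)) (ed (x, d')) :=
  (adj_ed hn _ _).2 ⟨fun h' => h (congrArg Prod.snd h'), Or.inl rfl⟩

theorem adj_B (hn : 2 ≤ n) (y : ZMod n × ZMod n) {d d' : Fin 3} (h : d ≠ d') :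
    (kagome n).Adj (ed (y + dv n d, d)) (ed (y + dv n d', d')) :=
  (adj_ed hn _ _).2 ⟨fun h' => h (congrArg Prod.snd h'), Or.inr (by simp)⟩

/-- the equivalence between pairs (vertex, direction) and edges -/
noncomputable def edE (hn : 2 ≤ n) : (ZMod n × ZMod n) × Fin 3 ≃ (honeycomb n).edgeSet :=
  Equiv.ofBijective ed ⟨ed_inj hn, ed_surj⟩

theorem edE_symm (hn : 2 ≤ n) (p : (ZMod n × ZMod n) × Fin 3) : (edE hn).symm (ed p) = p :=
  (edE hn).symm_apply_apply p

theorem proper_of (hn : 2 ≤ n) (C : (ZMod n × ZMod n) × Fin 3 → Fin 3)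
    (hA : ∀ x, Function.Injective fun d => C (x, d))
    (hB : ∀ y, Function.Injective fun d => C (y + dv n d, d)) :
    Proper (kagome n) (fun ε => C ((edE hn).symm ε)) := by
  intro ε ε' h
  obtain ⟨⟨x, d⟩, rfl⟩ := ed_surj ε
  obtain ⟨⟨x', d'⟩, rfl⟩ := ed_surj ε'
  rw [adj_ed hn] at h
  simp only [edE_symm]
  obtain ⟨h1, h2 | h2⟩ := h
  · simp only at h2
    subst h2
    exact fun h => h1 (by rw [hA x h])
  · simp only at h2
    intro h
    have hx : x = (x - dv n d) + dv n d := by simp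
    have hx' : x' = (x - dv n d) + dv n d' := by rw [h2]; simp
    have hd : d = d' := hB (x - dv n d) (by simp only; rw [← hx, ← hx']; exact h)
    subst hd
    exact h1 (by rw [sub_left_injective h2])

/-- chirality of a triple of colours -/
def sg (t : Fin 3 → Fin 3) : ZMod 2 := if t 1 = t 0 + 1 then 0 else 1

set_option synthInstance.maxSize 2000 in
theorem sg_swap : ∀ (a b : Fin 3) (t : Fin 3 → Fin 3) (u : Fin 3 → Bool), a ≠ b →
    Function.Injective t → (∀ d, u d = true → t d = a ∨ t d = b) →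
    (∀ d d', u d = true → (t d' = a ∨ t d' = b) → u d' = true) →
    sg (fun d => if u d = true then Equiv.swap a b (t d) else t d) =
      sg t + ∑ d, if u d = true ∧ t d = a then 1 else 0 := by
  unfold Function.Injective
  decide +kernel

/-- the parity invariant -/
def inv [NeZero n] (c : (honeycomb n).edgeSet → Fin 3) : ZMod 2 :=
  (∑ x : ZMod n × ZMod n, sg fun d => c (ed (x, d))) +
    ∑ y : ZMod n × ZMod n, sg fun d => c (ed (y + dv n d, d))

theorem inv_step [NeZero n] (hn : 2 ≤ n) {c c' : (kagome n).Coloring (Fin 3)}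
    (h : KempeStep c c') : inv c' = inv c := by
  classical
  obtain ⟨a, b, hab, U, hU, hs⟩ := h.closed
  have key : ∀ f : Fin 3 → (honeycomb n).edgeSet,
      (∀ d d', d ≠ d' → (kagome n).Adj (f d) (f d')) →
      sg (fun d => c' (f d)) = sg (fun d => c (f d)) +
        ∑ d, if f d ∈ U ∧ c (f d) = a then 1 else 0 := by
    intro f hf
    have := sg_swap a b (fun d => c (f d)) (fun d => decide (f d ∈ U)) hab
      (fun d d' h => by
        by_contra hd
        exact c.valid (hf d d' hd) h)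
      (fun d hd => hU.1 _ (by simpa using hd))
      (fun d d' hd h => by
        by_cases hdd : d = d'
        · rw [← hdd]; exact hd
        · simpa using hU.2 _ (by simpa using hd) _ (hf d d' hdd) h)
    simp only [decide_eq_true_eq] at this
    rw [← this]
    congr 1
    funext d
    split_ifs with hd
    · exact hs.1 _ hd
    · exact hs.2 _ hd
  unfold inv
  simp only [fun x => key (fun d => ed (x, d)) (fun d d' h => adj_A hn x h),
    fun y => key (fun d => ed (y + dv n d, d)) (fun d d' h => adj_B hn y h),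
    Finset.sum_add_distrib]
  have : (∑ y : ZMod n × ZMod n, ∑ d : Fin 3,
      if ed (y + dv n d, d) ∈ U ∧ c (ed (y + dv n d, d)) = a then (1 : ZMod 2) else 0) =
      ∑ x : ZMod n × ZMod n, ∑ d : Fin 3,
        if ed (x, d) ∈ U ∧ c (ed (x, d)) = a then (1 : ZMod 2) else 0 := by
    rw [Finset.sum_comm, Finset.sum_comm (s := (Finset.univ : Finset (ZMod n × ZMod n)))]
    refine Finset.sum_congr rfl fun d _ => ?_
    exact Equiv.sum_comp (Equiv.addRight (dv n d))
      (fun x => if ed (x, d) ∈ U ∧ c (ed (x, d)) = a then (1 : ZMod 2) else 0)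
  rw [this]
  have h2 : ∀ p q r : ZMod 2, p + r + (q + r) = p + q := by decide
  exact h2 _ _ _

theorem inv_reach [NeZero n] (hn : 2 ≤ n) {c c' : (kagome n).Coloring (Fin 3)}
    (h : Relation.ReflTransGen KempeStep c c') : inv c' = inv c := by
  induction h with
  | refl => rfl
  | tail _ h ih => rw [inv_step hn h, ih]

theorem proper_std (hn : 2 ≤ n) : Proper (kagome n) (fun ε => ((edE hn).symm ε).2) :=
  proper_of hn (fun p => p.2) (fun _ _ _ h => h) (fun _ _ _ h => h)

theorem not_ergodic_of [NeZero n] (hn : 2 ≤ n) (C : (ZMod n × ZMod n) × Fin 3 → Fin 3)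
    (hA : ∀ x, Function.Injective fun d => C (x, d))
    (hB : ∀ y, Function.Injective fun d => C (y + dv n d, d))
    (hodd : (∑ x : ZMod n × ZMod n, (sg (fun d => C (x, d)) + sg fun d => C (x + dv n d, d))) = 1) :
    ¬ WSKErgodic (kagome n) 3 := by
  intro h
  have := inv_reach hn (h (toCol _ (proper_std hn)) (toCol _ (proper_of hn C hA hB)))
  unfold inv at this
  simp only [toCol_apply, edE_symm] at this
  rw [← Finset.sum_add_distrib, hodd] at this
  have h0 : sg (fun d => d) = 0 := by decide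
  simp [h0] at this

end Pool.Agent.H726Z.Kag
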