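import Pool.Agent.H726Z.Kag.Basic

namespace Pool.Agent.H726Z.Kag

open Pool.Agent.H411R2.WSK

/-- block label of a coordinate -/
def lab (m p i : ℕ) : ℕ := if i < m then i else m + (i - m) % p

/-- successor of a label inside its block -/
def nx (m p l : ℕ) : ℕ := if l < m then (l + 1) % m else m + (l - m + 1) % p

/-- table lookup -/
def tb (T : List (List (Fin 3 → Fin 3))) (i j : ℕ) : Fin 3 → Fin 3 := (T.getD i []).getD j id

/-- the triple of colours at a `B` vertex -/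
def tB (T : List (List (Fin 3 → Fin 3))) (m p i j : ℕ) : Fin 3 → Fin 3 :=
  ![tb T i j 0, tb T (nx m p i) j 1, tb T i (nx m p j) 2]

/-- weight of a cell -/
def wt (T : List (List (Fin 3 → Fin 3))) (m p i j : ℕ) : ZMod 2 := sg (tb T i j) + sg (tB T m p i j)

/-- the finite conditions on a table -/
def Good (T : List (List (Fin 3 → Fin 3))) (m p : ℕ) : Prop :=
  (∀ i < m + p, ∀ j < m + p, (∀ d d', tb T i j d = tb T i j d' → d = d') ∧
    (∀ d d', tB T m p i j d = tB T m p i j d' → d = d')) ∧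
  ∀ i < m + p, tb T 0 i 1 = tb T m i 1 ∧ tb T i 0 2 = tb T i m 2

theorem lab_lt {m p : ℕ} (hp : 0 < p) (i : ℕ) : lab m p i < m + p := by
  unfold lab
  have := Nat.mod_lt (i - m) hp
  split_ifs <;> omega

theorem sum_lab {M : Type*} [AddCommMonoid M] (m p a : ℕ) (f : ℕ → M) :
    ∑ i ∈ Finset.range (m + p * a), f (lab m p i) =
      ∑ i ∈ Finset.range m, f i + a • ∑ r ∈ Finset.range p, f (m + r) := by
  induction a with
  | zero =>
    simp only [mul_zero, add_zero, zero_smul]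
    exact Finset.sum_congr rfl fun i hi => by rw [lab, if_pos (Finset.mem_range.1 hi)]
  | succ a ih =>
    rw [mul_add, mul_one, ← add_assoc, Finset.sum_range_add, ih, add_smul, one_smul, add_assoc]
    congr 2
    refine Finset.sum_congr rfl fun r hr => ?_
    have hr' := Finset.mem_range.1 hr
    rw [lab, if_neg (by omega)]
    have : m + p * a + r - m = r + p * a := by omega
    rw [this, Nat.add_mul_mod_self_left, Nat.mod_eq_of_lt hr']

theorem sum_zmod {M : Type*} [AddCommMonoid M] (n : ℕ) [NeZero n] (f : ℕ → M) :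
    ∑ x : ZMod n, f x.val = ∑ i ∈ Finset.range n, f i := by
  obtain ⟨k, rfl⟩ := Nat.exists_eq_succ_of_ne_zero (NeZero.ne n)
  exact Fin.sum_univ_eq_sum_range f (k + 1)

theorem family (T : List (List (Fin 3 → Fin 3))) (m p a n : ℕ) (hp : 0 < p) (hn : 2 ≤ n)
    (hna : n = m + p * a) (hT : Good T m p)
    (hs : ∀ i < n, lab m p ((i + 1) % n) = nx m p (lab m p i) ∨
      ((nx m p (lab m p i) = 0 ∨ nx m p (lab m p i) = m) ∧
        (lab m p ((i + 1) % n) = 0 ∨ lab m p ((i + 1) % n) = m)))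
    (hodd : (∑ i ∈ Finset.range m, (∑ j ∈ Finset.range m, wt T m p i j +
        a • ∑ r ∈ Finset.range p, wt T m p i (m + r))) +
      a • ∑ s ∈ Finset.range p, (∑ j ∈ Finset.range m, wt T m p (m + s) j +
        a • ∑ r ∈ Finset.range p, wt T m p (m + s) (m + r)) = 1) :
    ¬ WSKErgodic (kagome n) 3 := by
  have : NeZero n := ⟨by omega⟩
  have : Fact (1 < n) := ⟨hn⟩
  have hval : ∀ x : ZMod n, (x + 1).val = (x.val + 1) % n := fun x => by
    rw [ZMod.val_add, ZMod.val_one]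
  have hB : ∀ y : ZMod n × ZMod n,
      (fun d => tb T (lab m p (y + dv n d).1.val) (lab m p (y + dv n d).2.val) d) =
        tB T m p (lab m p y.1.val) (lab m p y.2.val) := by
    intro y
    funext d
    fin_cases d
    · simp [dv, tB]
    · have h1 := hT.2 _ (lab_lt (m := m) hp y.2.val)
      simp only [dv, tB, Fin.mk_one, Fin.isValue, Matrix.cons_val_one, Matrix.cons_val_zero,
        Prod.fst_add, Prod.snd_add, add_zero, hval]
      rcases hs _ (ZMod.val_lt y.1) with h | ⟨h | h, h' | h'⟩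
      · rw [h]
      · rw [h, h']
      · rw [h, h', h1.1]
      · rw [h, h', h1.1]
      · rw [h, h']
    · have h1 := hT.2 _ (lab_lt (m := m) hp y.1.val)
      simp only [dv, tB, Fin.reduceFinMk, Fin.isValue, Matrix.cons_val, Prod.fst_add,
        Prod.snd_add, add_zero, hval]
      rcases hs _ (ZMod.val_lt y.2) with h | ⟨h | h, h' | h'⟩
      · rw [h]
      · rw [h, h']
      · rw [h, h', h1.2]
      · rw [h, h', h1.2]
      · rw [h, h']
  refine not_ergodic_of hn (fun q => tb T (lab m p q.1.1.val) (lab m p q.1.2.val) q.2)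
    (fun x d d' h => (hT.1 _ (lab_lt hp _) _ (lab_lt hp _)).1 d d' h) (fun y => ?_) ?_
  · simp only [hB]
    exact fun d d' h => (hT.1 _ (lab_lt hp _) _ (lab_lt hp _)).2 d d' h
  · simp only [hB]
    rw [Fintype.sum_prod_type]
    have h1 : ∀ x : ZMod n, ∑ y : ZMod n, wt T m p (lab m p x.val) (lab m p y.val) =
        ∑ j ∈ Finset.range m, wt T m p (lab m p x.val) j +
          a • ∑ r ∈ Finset.range p, wt T m p (lab m p x.val) (m + r) := fun x => by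
      rw [sum_zmod n (fun j => wt T m p (lab m p x.val) (lab m p j))]
      subst hna
      exact sum_lab m p a _
    rw [← hodd]
    refine (Finset.sum_congr rfl fun x _ => h1 x).trans ?_
    rw [sum_zmod n (fun i => ∑ j ∈ Finset.range m, wt T m p (lab m p i) j +
          a • ∑ r ∈ Finset.range p, wt T m p (lab m p i) (m + r))]
    subst hna
    exact sum_lab m p a (fun i => ∑ j ∈ Finset.range m, wt T m p i j +
          a • ∑ r ∈ Finset.range p, wt T m p i (m + r))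

theorem nsmul_two (a : ℕ) (x : ZMod 2) : a • x = (a % 2) • x := by
  rw [nsmul_eq_mul, nsmul_eq_mul, ZMod.natCast_mod]

/-- table -/
def T1 : List (List (Fin 3 → Fin 3)) :=
  [[![0, 1, 2], ![2, 0, 1], ![1, 2, 0], ![0, 1, 2], ![0, 2, 1]], [![1, 2, 0], ![0, 1, 2], ![2, 0, 1], ![1, 2, 0], ![2, 1, 0]], [![2, 0, 1], ![1, 2, 0], ![0, 1, 2], ![0, 2, 1], ![0, 1, 2]], [![0, 1, 2], ![2, 0, 1], ![0, 2, 1], ![0, 1, 2], ![0, 2, 1]], [![0, 2, 1], ![1, 0, 2], ![0, 1, 2], ![0, 2, 1], ![0, 1, 2]]]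

theorem fam1 (a : ℕ) : ¬ WSKErgodic (kagome (3 + 2 * a)) 3 := by
  refine family T1 3 2 a _ (by omega) (by omega) rfl (by unfold Good; decide +kernel) ?_ ?_
  · intro i hi
    rcases Nat.lt_or_ge (i + 1) (3 + 2 * a) with h | h
    · rw [Nat.mod_eq_of_lt h]
      unfold nx lab
      split_ifs <;> omega
    · have h2 : i + 1 = 3 + 2 * a := by omega
      rw [h2, Nat.mod_self]
      unfold nx lab
      rcases Nat.eq_zero_or_pos a with rfl | h0 <;> split_ifs <;> omega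
  · simp only [nsmul_two a]
    rcases Nat.mod_two_eq_zero_or_one a with ha | ha <;> rw [ha] <;> decide +kernel

/-- table -/
def T2 : List (List (Fin 3 → Fin 3)) :=
  [[![2, 1, 0], ![2, 1, 0], ![0, 2, 1], ![2, 0, 1], ![2, 1, 0], ![2, 1, 0], ![2, 0, 1]], [![2, 1, 0], ![2, 0, 1], ![1, 2, 0], ![2, 1, 0], ![2, 1, 0], ![2, 0, 1], ![2, 1, 0]], [![2, 0, 1], ![2, 1, 0], ![1, 2, 0], ![0, 1, 2], ![2, 0, 1], ![2, 1, 0], ![2, 1, 0]], [![0, 1, 2], ![0, 1, 2], ![1, 0, 2], ![1, 2, 0], ![0, 1, 2], ![0, 1, 2], ![1, 0, 2]], [![2, 1, 0], ![2, 1, 0], ![0, 2, 1], ![2, 0, 1], ![2, 1, 0], ![2, 1, 0], ![2, 0, 1]], [![2, 1, 0], ![2, 0, 1], ![1, 2, 0], ![2, 1, 0], ![2, 1, 0], ![2, 0, 1], ![2, 1, 0]], [![2, 0, 1], ![2, 1, 0], ![1, 2, 0], ![2, 1, 0], ![2, 0, 1], ![2, 1, 0], ![2, 1, 0]]]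

theorem fam2 (a : ℕ) : ¬ WSKErgodic (kagome (4 + 3 * a)) 3 := by
  refine family T2 4 3 a _ (by omega) (by omega) rfl (by unfold Good; decide +kernel) ?_ ?_
  · intro i hi
    rcases Nat.lt_or_ge (i + 1) (4 + 3 * a) with h | h
    · rw [Nat.mod_eq_of_lt h]
      unfold nx lab
      split_ifs <;> omega
    · have h2 : i + 1 = 4 + 3 * a := by omega
      rw [h2, Nat.mod_self]
      unfold nx lab
      rcases Nat.eq_zero_or_pos a with rfl | h0 <;> split_ifs <;> omega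
  · simp only [nsmul_two a]
    rcases Nat.mod_two_eq_zero_or_one a with ha | ha <;> rw [ha] <;> decide +kernel

/-- table -/
def T3 : List (List (Fin 3 → Fin 3)) :=
  [[![2, 0, 1], ![2, 1, 0], ![0, 2, 1], ![2, 0, 1], ![0, 2, 1], ![0, 2, 1], ![1, 0, 2], ![2, 1, 0]], [![2, 1, 0], ![2, 0, 1], ![1, 2, 0], ![1, 0, 2], ![1, 2, 0], ![2, 1, 0], ![0, 2, 1], ![2, 0, 1]], [![1, 0, 2], ![2, 1, 0], ![2, 0, 1], ![1, 2, 0], ![1, 2, 0], ![1, 0, 2], ![1, 2, 0], ![0, 1, 2]], [![0, 2, 1], ![2, 0, 1], ![2, 1, 0], ![0, 2, 1], ![2, 0, 1], ![0, 2, 1], ![2, 0, 1], ![2, 1, 0]], [![1, 2, 0], ![0, 1, 2], ![1, 0, 2], ![1, 2, 0], ![1, 0, 2], ![1, 2, 0], ![2, 1, 0], ![2, 0, 1]], [![2, 0, 1], ![2, 1, 0], ![0, 2, 1], ![2, 0, 1], ![0, 2, 1], ![0, 2, 1], ![1, 0, 2], ![2, 1, 0]], [![0, 1, 2], ![1, 0, 2], ![1, 2, 0], ![1, 0, 2], ![1, 2, 0], ![0, 1, 2], ![0, 2, 1], ![1, 0, 2]], [![2, 1, 0], ![0, 2, 1], ![1, 0, 2], ![1, 2, 0], ![1,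 0, 2], ![1, 2, 0], ![2, 1, 0], ![2, 0, 1]]]

theorem fam3 (a : ℕ) (ha : a % 2 = 1) : ¬ WSKErgodic (kagome (5 + 3 * a)) 3 := by
  refine family T3 5 3 a _ (by omega) (by omega) rfl (by unfold Good; decide +kernel) ?_ ?_
  · intro i hi
    rcases Nat.lt_or_ge (i + 1) (5 + 3 * a) with h | h
    · rw [Nat.mod_eq_of_lt h]
      unfold nx lab
      split_ifs <;> omega
    · have h2 : i + 1 = 5 + 3 * a := by omega
      rw [h2, Nat.mod_self]
      unfold nx lab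
      rcases Nat.eq_zero_or_pos a with rfl | h0 <;> split_ifs <;> omega
  · simp only [nsmul_two a]
    rw [ha]
    decide +kernel

/-- table -/
def T4 : List (List (Fin 3 → Fin 3)) :=
  [[![2, 0, 1], ![1, 2, 0], ![2, 1, 0], ![1, 2, 0], ![2, 1, 0], ![2, 1, 0], ![0, 2, 1], ![1, 0, 2], ![0, 1, 2]], [![0, 1, 2], ![0, 2, 1], ![0, 1, 2], ![0, 2, 1], ![0, 1, 2], ![1, 0, 2], ![0, 1, 2], ![2, 0, 1], ![0, 2, 1]], [![0, 2, 1], ![0, 1, 2], ![0, 2, 1], ![0, 1, 2], ![0, 1, 2], ![2, 0, 1], ![0, 2, 1], ![2, 0, 1], ![2, 1, 0]], [![2, 1, 0], ![0, 2, 1], ![0, 1, 2], ![0, 1, 2], ![0, 2, 1], ![1, 0, 2], ![1, 2, 0], ![0, 1, 2], ![1, 0, 2]], [![1, 0, 2], ![0, 1, 2], ![0, 1, 2], ![0, 2, 1], ![0, 1, 2], ![0, 2, 1], ![1, 0, 2], ![0, 1, 2], ![0, 2, 1]], [![1, 0, 2], ![0, 1, 2], ![0, 2, 1], ![0, 1, 2], ![0, 2, 1], ![0, 1, 2], ![1, 0, 2], ![1, 2, 0], ![0, 1, 2]], [![2, 0, 1], ![1, 2, 0], ![2, 1, 0], ![0, 2, 1], ![0, 1, 2],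 ![0, 1, 2], ![0, 2, 1], ![1, 0, 2], ![0, 1, 2]], [![0, 1, 2], ![0, 2, 1], ![1, 0, 2], ![2, 1, 0], ![2, 1, 0], ![0, 2, 1], ![0, 1, 2], ![2, 0, 1], ![1, 2, 0]], [![1, 2, 0], ![0, 1, 2], ![0, 2, 1], ![0, 1, 2], ![2, 0, 1], ![2, 1, 0], ![1, 2, 0], ![2, 1, 0], ![2, 0, 1]]]

theorem fam4 (a : ℕ) (ha : a % 2 = 0) : ¬ WSKErgodic (kagome (6 + 3 * a)) 3 := by
  refine family T4 6 3 a _ (by omega) (by omega) rfl (by unfold Good; decide +kernel) ?_ ?_
  · intro i hi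
    rcases Nat.lt_or_ge (i + 1) (6 + 3 * a) with h | h
    · rw [Nat.mod_eq_of_lt h]
      unfold nx lab
      split_ifs <;> omega
    · have h2 : i + 1 = 6 + 3 * a := by omega
      rw [h2, Nat.mod_self]
      unfold nx lab
      rcases Nat.eq_zero_or_pos a with rfl | h0 <;> split_ifs <;> omega
  · simp only [nsmul_two a]
    rw [ha]
    decide +kernel

theorem not_ergodic {n : ℕ} (hn : 3 ≤ n) : ¬ WSKErgodic (kagome n) 3 := by
  by_cases h : n % 2 = 1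
  · obtain ⟨a, rfl⟩ : ∃ a, n = 3 + 2 * a := ⟨(n - 3) / 2, by omega⟩
    exact fam1 a
  by_cases h1 : n % 3 = 1
  · obtain ⟨a, rfl⟩ : ∃ a, n = 4 + 3 * a := ⟨(n - 4) / 3, by omega⟩
    exact fam2 a
  by_cases h2 : n % 3 = 2
  · obtain ⟨a, rfl⟩ : ∃ a, n = 5 + 3 * a := ⟨(n - 5) / 3, by omega⟩
    exact fam3 a (by omega)
  · obtain ⟨a, rfl⟩ : ∃ a, n = 6 + 3 * a := ⟨(n - 6) / 3, by omega⟩
    exact fam4 a (by omega)

/-- candidate unions of Kempe chains for `n = 2` -/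
def cand (k : Fin 4) (p : (ZMod 2 × ZMod 2) × Fin 3) : Bool :=
  ![false, p.1.2 = 0 && p.2 ≠ 2, p.1.1 = 0 && p.2 ≠ 1, p.1.1 ≠ p.1.2 && p.2 ≠ 0] k

/-- a colouring of the twelve edges from four triples -/
def mk4 (t00 t01 t10 t11 : Fin 3 → Fin 3) (p : (ZMod 2 × ZMod 2) × Fin 3) : Fin 3 :=
  if p.1.1 = 0 then (if p.1.2 = 0 then t00 p.2 else t01 p.2)
  else (if p.1.2 = 0 then t10 p.2 else t11 p.2)

/-- injectivity of a triple -/
def inj3 (t : Fin 3 → Fin 3) : Prop := t 0 ≠ t 1 ∧ t 0 ≠ t 2 ∧ t 1 ≠ t 2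

instance (t : Fin 3 → Fin 3) : Decidable (inj3 t) := by unfold inj3; infer_instance

set_option synthInstance.maxSize 4000 in
theorem two_key : ∀ t00 : Fin 3 → Fin 3, inj3 t00 → ∀ t01 : Fin 3 → Fin 3, inj3 t01 →
    ∀ t10 : Fin 3 → Fin 3, inj3 t10 → ∀ t11 : Fin 3 → Fin 3, inj3 t11 →
    (∀ y : ZMod 2 × ZMod 2, inj3 fun d => mk4 t00 t01 t10 t11 (y + dv 2 d, d)) →
    ∃ k : Fin 4, ∃ a b : Fin 3, a ≠ b ∧
      (∀ p, cand k p = true → mk4 t00 t01 t10 t11 p = a ∨ mk4 t00 t01 t10 t11 p = b) ∧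
      (∀ p q, cand k p = true → (p.1 = q.1 ∨ p.1 - dv 2 p.2 = q.1 - dv 2 q.2) →
        (mk4 t00 t01 t10 t11 q = a ∨ mk4 t00 t01 t10 t11 q = b) → cand k q = true) ∧
      ∀ p, (if cand k p = true then Equiv.swap a b (mk4 t00 t01 t10 t11 p)
        else mk4 t00 t01 t10 t11 p) = t11 p.2 := by
  decide +kernel

theorem inj3_iff (t : Fin 3 → Fin 3) (h : ∀ d d', d ≠ d' → t d ≠ t d') : inj3 t :=
  ⟨h _ _ (by decide), h _ _ (by decide), h _ _ (by decide)⟩

theorem ergodic_two : WSKErgodic (kagome 2) 3 := by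
  classical
  have hn : 2 ≤ 2 := le_rfl
  have : Finite (honeycomb 2).edgeSet := Finite.of_equiv _ (edE hn)
  refine ergodic_of_conn (base := fun ε => ((edE hn).symm ε).2) fun c hc => ?_
  have hmk : ∀ p, mk4 (fun d => c (ed ((0, 0), d))) (fun d => c (ed ((0, 1), d)))
      (fun d => c (ed ((1, 0), d))) (fun d => c (ed ((1, 1), d))) p = c (ed p) := by
    rintro ⟨⟨x, y⟩, d⟩
    have h2 : ∀ z : ZMod 2, z = 0 ∨ z = 1 := by decide
    rcases h2 x with rfl | rfl <;> rcases h2 y with rfl | rfl <;> simp [mk4]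
  have hA : ∀ x, inj3 fun d => c (ed (x, d)) := fun x =>
    inj3_iff _ fun d d' h => hc _ _ (adj_A hn x h)
  obtain ⟨k, a, b, hab, h1, h2, h3⟩ := two_key _ (hA (0, 0)) _ (hA (0, 1)) _ (hA (1, 0)) _
    (hA (1, 1)) (fun y => by
      simp only [hmk]
      exact inj3_iff _ fun d d' h => hc _ _ (adj_B hn y h))
  simp only [hmk] at h1 h2 h3
  have hinj : Function.Injective fun d => c (ed ((1, 1), d)) := fun d d' h => by
    by_contra hd
    exact hc _ _ (adj_A hn (1, 1) hd) h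
  let σ : Equiv.Perm (Fin 3) := Equiv.ofBijective _ hinj.bijective_of_finite
  refine Conn.trans ?_ (Conn.perm (proper_std hn) σ).symm
  refine conn_of_closed hc hab (U := {ε | cand k ((edE hn).symm ε) = true}) ⟨?_, ?_⟩ ⟨?_, ?_⟩
  · intro ε hε
    obtain ⟨p, rfl⟩ := ed_surj ε
    exact h1 p (by simpa [edE_symm] using hε)
  · intro ε hε ε' h h'
    obtain ⟨p, rfl⟩ := ed_surj ε
    obtain ⟨q, rfl⟩ := ed_surj ε'
    have := h2 p q (by simpa [edE_symm] using hε) ((adj_ed hn p q).1 h).2 h'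
    simpa [edE_symm] using this
  · intro ε hε
    obtain ⟨p, rfl⟩ := ed_surj ε
    have := h3 p
    rw [if_pos (by simpa [edE_symm] using hε)] at this
    rw [this]
    simp [edE_symm, σ]
  · intro ε hε
    obtain ⟨p, rfl⟩ := ed_surj ε
    have := h3 p
    rw [if_neg (by simpa [edE_symm] using hε)] at this
    rw [this]
    simp [edE_symm, σ]

end Pool.Agent.H726Z.Kag
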